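import Pool.Agent.H73.PHS.Stmts

set_option autoImplicit false

open Set Filter Topology MeasureTheory Metric

namespace Pool.PHS

theorem CRH_single {n : ℕ} (T : Cn n →L[ℝ] ℂ) (k : Fin n)
    (h : T (Pi.single k Complex.I) = Complex.I * T (Pi.single k 1)) (c : ℂ) :
    T (Pi.single k c) = c * T (Pi.single k 1) := by
  have e : (Pi.single k c : Cn n) = c.re • (Pi.single k 1 : Cn n) +
      c.im • (Pi.single k Complex.I : Cn n) := by
    rw [← Pi.single_smul, ← Pi.single_smul, ← Pi.single_add]
    congr 1
    rw [Complex.real_smul, Complex.real_smul, mul_one]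
    exact (Complex.re_add_im c).symm
  rw [e, map_add, map_smul, map_smul, h, Complex.real_smul, Complex.real_smul]
  calc (c.re : ℂ) * T (Pi.single k 1) + (c.im : ℂ) * (Complex.I * T (Pi.single k 1))
      = ((c.re : ℂ) + (c.im : ℂ) * Complex.I) * T (Pi.single k 1) := by ring
    _ = c * T (Pi.single k 1) := by rw [Complex.re_add_im]

theorem CRH_thm : CRHStmt := by
  intro n F z
  constructor
  · intro h
    refine ⟨h.restrictScalars ℝ, fun k => ?_⟩
    unfold dbar
    rw [h.fderiv_restrictScalars ℝ]
    have e : (Pi.single k Complex.I : Cn n) = Complex.I • (Pi.single k 1 : Cn n) := by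
      rw [← Pi.single_smul, smul_eq_mul, mul_one]
    rw [e, ContinuousLinearMap.coe_restrictScalars', map_smul, smul_eq_mul, ← mul_assoc,
      Complex.I_mul_I]
    ring
  · rintro ⟨h, hd⟩
    have hI : ∀ k : Fin n, fderiv ℝ F z (Pi.single k Complex.I) =
        Complex.I * fderiv ℝ F z (Pi.single k 1) := by
      intro k
      have h1 := hd k
      unfold dbar at h1
      have h2 : Complex.I * (fderiv ℝ F z (Pi.single k 1) +
          Complex.I * fderiv ℝ F z (Pi.single k Complex.I)) = 0 := by rw [h1, mul_zero]
      rw [mul_add, ← mul_assoc, Complex.I_mul_I] at h2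
      linear_combination (-1 : ℂ) * h2
    have hT : (∑ k : Fin n, (ContinuousLinearMap.proj (R := ℂ) (φ := fun _ : Fin n => ℂ) k).smulRight
        (fderiv ℝ F z (Pi.single k 1))).restrictScalars ℝ = fderiv ℝ F z := by
      ext v
      have e : v = ∑ k : Fin n, (Pi.single k (v k) : Cn n) := by
        funext i
        rw [Finset.sum_apply]
        simp [Pi.single_apply]
      rw [ContinuousLinearMap.coe_restrictScalars', sum_apply]
      conv_rhs => rw [e]
      rw [map_sum]
      refine Finset.sum_congr rfl fun k _ => ?_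
      exact (CRH_single (fderiv ℝ F z) k (hI k) (v k)).symm
    exact (hasFDerivAt_of_restrictScalars ℝ h.hasFDerivAt hT).differentiableAt

end Pool.PHS
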